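import Pool.Agent.Lib.MP_305fdd_al.Free2

/-!
# MP_305fdd, F_r, block DIV: approximation by words (Burnside)
-/

set_option autoImplicit false

namespace Pool.Agent.FrDiv

open Matrix Pool.Agent.Lib.MP_305fdd_al

/-- A homomorphism onto a finite `2`-group is onto on every subgroup which is seen by all characters
of order two. -/
theorem burnside {Γ P : Type} [Group Γ] [Group P] [Finite P] (hP : IsPGroup 2 P) (ψ : Γ →* P)
    (hψ : Function.Surjective ψ) (H : Subgroup Γ)
    (hH : ∀ χ : Γ →* Multiplicative (ZMod 2), (∀ h ∈ H, χ h = 1) → χ = 1) (x : Γ) :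
    ∃ h ∈ H, ψ h = ψ x := by
  have : Fact (Nat.Prime 2) := ⟨Nat.prime_two⟩
  have key : H.map ψ = ⊤ := by
    rcases eq_top_or_exists_le_coatom (H.map ψ) with h | ⟨M, hM, hle⟩
    · exact h
    · exfalso
      obtain ⟨χ, hχ⟩ := exists_hom_of_coatom (p := 2) hP M hM
      have h1 : χ.comp ψ = 1 := by
        refine hH _ fun h hh => ?_
        rw [MonoidHom.comp_apply]
        have : ψ h ∈ χ.ker := by
          rw [hχ]
          exact hle (Subgroup.mem_map_of_mem ψ hh)
        exact this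
      apply hM.1
      rw [eq_top_iff]
      intro y _
      obtain ⟨z, rfl⟩ := hψ y
      rw [← hχ, MonoidHom.mem_ker]
      exact DFunLike.congr_fun h1 z
  have : ψ x ∈ H.map ψ := by rw [key]; trivial
  obtain ⟨h, hh, e⟩ := Subgroup.mem_map.mp this
  exact ⟨h, hh, e⟩

/-- powers in characteristic two -/
theorem one_add_pow {R : Type} [CommRing R] (h2 : (2 : R) = 0) (V : Matrix (Fin 2) (Fin 2) R)
    (n : ℕ) : (1 + V) ^ (2 ^ n) = 1 + V ^ (2 ^ n) := by
  induction n with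
  | zero => simp
  | succ n ih =>
    rw [pow_succ, pow_mul, ih, pow_mul]
    have h : (1 + V ^ 2 ^ n) ^ 2 = 1 + (2 : R) • V ^ 2 ^ n + (V ^ 2 ^ n) ^ 2 := by
      rw [pow_two, pow_two, add_mul, mul_add, mul_add, one_mul, mul_one, one_mul, two_smul]
      abel
    rw [h, h2, zero_smul, add_zero]

theorem pow_entries {R : Type} [CommRing R] (I : Ideal R) (V : Matrix (Fin 2) (Fin 2) R)
    (hV : ∀ i j, V i j ∈ I) (n : ℕ) : ∀ i j, (V ^ n) i j ∈ I ^ n := by
  induction n with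
  | zero => intro i j; simp
  | succ n ih =>
    intro i j
    rw [pow_succ V n, Matrix.mul_apply, pow_succ]
    exact Ideal.sum_mem _ fun k _ => Ideal.mul_mem_mul (ih i k) (hV k j)

variable {A : Type} [CommRing A] [Algebra (ZMod 2) A] (m : Ideal A)
variable {Γ : Type} [Group Γ] (ρ : Γ →* SpecialLinearGroup (Fin 2) A)

/-- APPROXIMATION BY WORDS. -/
theorem approx (hfin : ∀ k, Finite (A ⧸ m ^ k))
    (hρ : ∀ x i j, (ρ x).1 i j - (1 : Matrix (Fin 2) (Fin 2) A) i j ∈ m) {b : ℕ} (g : Fin b → Γ)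
    (hg : ∀ χ : Γ →* Multiplicative (ZMod 2), (∀ i, χ (g i) = 1) → χ = 1) (k : ℕ) (x : Γ) :
    ∃ w : FreeGroup (Fin b), ∀ i j, (ρ (FreeGroup.lift g w)).1 i j - (ρ x).1 i j ∈ m ^ k := by
  classical
  have hf := hfin k
  have h2 : (2 : A ⧸ m ^ k) = 0 := by
    have h : algebraMap (ZMod 2) (A ⧸ m ^ k) 2 = 2 := map_ofNat _ 2
    rw [← h, show (2 : ZMod 2) = 0 from rfl, map_zero]
  have hfM : Finite (Matrix (Fin 2) (Fin 2) (A ⧸ m ^ k)) := by
    unfold Matrix
    infer_instance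
  have hfS : Finite (SpecialLinearGroup (Fin 2) (A ⧸ m ^ k)) :=
    Finite.of_injective (fun A => A.1) Subtype.val_injective
  let π : SpecialLinearGroup (Fin 2) A →* SpecialLinearGroup (Fin 2) (A ⧸ m ^ k) :=
    SpecialLinearGroup.map (Ideal.Quotient.mk (m ^ k))
  let ψ : Γ →* SpecialLinearGroup (Fin 2) (A ⧸ m ^ k) := π.comp ρ
  have hval : ∀ y i j, (ψ y).1 i j = Ideal.Quotient.mk (m ^ k) ((ρ y).1 i j) := fun y i j => rfl
  have hP : IsPGroup 2 ψ.range := by
    rintro ⟨y, x, rfl⟩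
    refine ⟨k, ?_⟩
    apply Subtype.ext
    apply Subtype.ext
    let V : Matrix (Fin 2) (Fin 2) A := (ρ x).1 - 1
    have hV : ∀ i j, V i j ∈ m := fun i j => hρ x i j
    have h1 : (ψ x).1 = 1 + V.map (Ideal.Quotient.mk (m ^ k)) := by
      ext i j
      have h6 : V.map (Ideal.Quotient.mk (m ^ k)) i j = Ideal.Quotient.mk (m ^ k) ((ρ x).1 i j) -
          Ideal.Quotient.mk (m ^ k) ((1 : Matrix (Fin 2) (Fin 2) A) i j) :=
        map_sub (Ideal.Quotient.mk (m ^ k)) _ _
      rw [hval, Matrix.add_apply, h6, Matrix.one_apply, Matrix.one_apply]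
      split_ifs <;> simp
    have h3' : ∀ n : ℕ, (((ψ x : SpecialLinearGroup (Fin 2) (A ⧸ m ^ k)) ^ n :
        SpecialLinearGroup (Fin 2) (A ⧸ m ^ k))).1 = (ψ x).1 ^ n := by
      intro n
      induction n with
      | zero => rfl
      | succ n ih =>
        rw [pow_succ, pow_succ, ← ih]
        rfl
    have h3 := h3' (2 ^ k)
    change (((ψ x : SpecialLinearGroup (Fin 2) (A ⧸ m ^ k)) ^ 2 ^ k :
        SpecialLinearGroup (Fin 2) (A ⧸ m ^ k))).1 = 1
    rw [h3, h1, one_add_pow h2]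
    have h4 : (V.map (Ideal.Quotient.mk (m ^ k))) ^ 2 ^ k = 0 := by
      have h5 : (V.map (Ideal.Quotient.mk (m ^ k))) ^ 2 ^ k =
          (V ^ 2 ^ k).map (Ideal.Quotient.mk (m ^ k)) := by
        have : V.map (Ideal.Quotient.mk (m ^ k)) = (Ideal.Quotient.mk (m ^ k)).mapMatrix V := rfl
        rw [this, ← map_pow]
        rfl
      rw [h5]
      ext i j
      rw [Matrix.map_apply, Matrix.zero_apply, Ideal.Quotient.eq_zero_iff_mem]
      exact Ideal.pow_le_pow_right (Nat.lt_two_pow_self).le (pow_entries m V hV _ i j)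
    rw [h4, add_zero]
  obtain ⟨h, ⟨w, rfl⟩, e⟩ := burnside hP ψ.rangeRestrict (MonoidHom.rangeRestrict_surjective ψ)
    (FreeGroup.lift g).range (fun χ hχ => hg χ fun i => hχ _ ⟨FreeGroup.of i, by simp⟩) x
  refine ⟨w, fun i j => ?_⟩
  have e1 : ψ (FreeGroup.lift g w) = ψ x := congrArg Subtype.val e
  have e2 := congrFun (congrFun (congrArg Subtype.val e1) i) j
  rw [hval, hval] at e2
  exact Ideal.Quotient.eq.mp e2

end Pool.Agent.FrDiv
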