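import Pool.Agent.Lib.MP_305fdd_al.Fr.Div.Weyl
import Pool.Agent.Lib.MP_305fdd_al.Fr.Div.Burn

/-!
# MP_305fdd, F_r, block DIV: there are no unipotent elements in characteristic two
-/

set_option autoImplicit false

namespace Pool.Agent.FrDiv

open MvPolynomial Matrix

variable {b : ℕ}

/-! ### Orders of polynomials -/

/-- all homogeneous components of degree less than `n` vanish -/
def Low (n : ℕ) (f : S b) : Prop := ∀ k < n, homogeneousComponent k f = 0

theorem Low.coeff {n : ℕ} {f : S b} (h : Low n f) {m : (Fin b × Fin 3) →₀ ℕ} (hm : m.degree < n) :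
    coeff m f = 0 := by
  have h1 := congrArg (MvPolynomial.coeff m) (h _ hm)
  rw [coeff_homogeneousComponent] at h1
  simpa using h1

theorem comp_mul {n k : ℕ} {f g : S b} (hf : Low n f) (hg : Low k g) :
    homogeneousComponent (n + k) (f * g) =
      homogeneousComponent n f * homogeneousComponent k g := by
  classical
  ext m
  rw [coeff_homogeneousComponent, coeff_mul, coeff_mul]
  split_ifs with hm
  · refine Finset.sum_congr rfl fun x hx => ?_
    have hx' : x.1 + x.2 = m := Finset.HasAntidiagonal.mem_antidiagonal.mp hx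
    have hd : x.1.degree + x.2.degree = n + k := by rw [← hm, ← hx', map_add]
    rw [coeff_homogeneousComponent, coeff_homogeneousComponent]
    by_cases h1 : x.1.degree = n
    · have h2 : x.2.degree = k := by omega
      rw [if_pos h1, if_pos h2]
    · rw [if_neg h1, zero_mul]
      rcases Nat.lt_or_gt_of_ne h1 with h2 | h2
      · rw [hf.coeff h2, zero_mul]
      · rw [hg.coeff (show x.2.degree < k by omega), mul_zero]
  · symm
    refine Finset.sum_eq_zero fun x hx => ?_
    have hx' : x.1 + x.2 = m := Finset.HasAntidiagonal.mem_antidiagonal.mp hx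
    rw [coeff_homogeneousComponent, coeff_homogeneousComponent]
    by_cases h1 : x.1.degree = n
    · by_cases h2 : x.2.degree = k
      · exact absurd (by rw [← hx', map_add, h1, h2]) hm
      · rw [if_neg h2, mul_zero]
    · rw [if_neg h1, zero_mul]

theorem swp_swp (f : S b) : swp (swp f) = f := by
  rw [swp, rename_rename]
  have : (sw ∘ sw : Fin b × Fin 3 → Fin b × Fin 3) = id := funext sw_sw
  rw [this, rename_id_apply]

/-- THE LEADING FORM IS NOT NILPOTENT. -/
theorem no_nilp (L : List (Fin b × Bool)) (d : ℕ) (h0 : ∀ i j, Low d (Q L i j))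
    (ht : homogeneousComponent d (Q L 0 0) = homogeneousComponent d (Q L 1 1))
    (hd : homogeneousComponent d (Q L 0 0) * homogeneousComponent d (Q L 1 1) =
      homogeneousComponent d (Q L 0 1) * homogeneousComponent d (Q L 1 0)) (i j : Fin 2) :
    homogeneousComponent d (Q L i j) = 0 := by
  have hw := weyl L d (fun i j => h0 i j)
  have hβ : IsWeightedHomogeneous (wt : Fin b × Fin 3 → ℤ) (homogeneousComponent d (Q L 0 1)) 1 := by
    have := comp_weight (Q_weight L 0 1) d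
    simpa [we] using this
  rw [← ht] at hd
  obtain ⟨h1, h2, h3⟩ := parity hβ hw (by rw [← hw, swp_swp]) hd
  fin_cases i <;> fin_cases j
  · exact h1
  · exact h2
  · exact h3
  · exact ht ▸ h1

/-! ### The theorem -/

variable {A : Type} [CommRing A] [Algebra (ZMod 2) A] (m : Ideal A)
variable {Γ : Type} [Group Γ] (ρ : Γ →* SpecialLinearGroup (Fin 2) A) (g : Fin b → Γ)

/-- the entries of `ρ (g i) - 1` -/
def u (j : Fin b × Fin 3) : A :=
  if j.2 = 0 then (ρ (g j.1)).1 0 0 - 1 else if j.2 = 1 then (ρ (g j.1)).1 0 1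
    else (ρ (g j.1)).1 1 0

/-- the associated graded ring at `m` is a polynomial ring in the `u j` -/
def Gr : Prop := ∀ (n : ℕ) (f : S b), f.IsHomogeneous n → aeval (u ρ g) f ∈ m ^ (n + 1) → f = 0

variable {m} {ρ} {g}

omit [Algebra (ZMod 2) A] in
theorem u_mem (hρ : ∀ x i j, (ρ x).1 i j - (1 : Matrix (Fin 2) (Fin 2) A) i j ∈ m)
    (j : Fin b × Fin 3) : u ρ g j ∈ m := by
  rw [u]
  split_ifs with h0 h1
  · have := hρ (g j.1) 0 0
    simpa using this
  · have := hρ (g j.1) 0 1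
    simpa using this
  · have := hρ (g j.1) 1 0
    simpa using this

theorem aeval_mem (hu : ∀ j, u ρ g j ∈ m) {n : ℕ} {f : S b} (hf : f.IsHomogeneous n) :
    aeval (u ρ g) f ∈ m ^ n := by
  rw [f.as_sum, map_sum]
  refine Ideal.sum_mem _ fun x hx => ?_
  have h := hf (mem_support_iff.mp hx)
  rw [aeval_monomial]
  refine Ideal.mul_mem_left _ _ ?_
  have h2 : ∑ i ∈ x.support, x i = n := by
    rw [← h, Finsupp.weight_apply, Finsupp.sum]
    exact Finset.sum_congr rfl fun i _ => by simp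
  rw [← h2, Finsupp.prod, ← Finset.prod_pow_eq_pow_sum]
  exact Ideal.prod_mem_prod fun i _ => Ideal.pow_mem_pow (hu i) _

theorem aeval_comp (f : S b) : aeval (u ρ g) f = ∑ k ∈ Finset.range (f.totalDegree + 1),
    aeval (u ρ g) (homogeneousComponent k f) := by
  conv_lhs => rw [← sum_homogeneousComponent f]
  rw [map_sum]

theorem low_mem (hu : ∀ j, u ρ g j ∈ m) {n : ℕ} {f : S b} (h : Low n f) :
    aeval (u ρ g) f ∈ m ^ n := by
  rw [aeval_comp]
  refine Ideal.sum_mem _ fun k _ => ?_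
  rcases Nat.lt_or_ge k n with hk | hk
  · rw [h k hk, map_zero]
    exact Ideal.zero_mem _
  · exact Ideal.pow_le_pow_right hk (aeval_mem hu (homogeneousComponent_isHomogeneous k f))

theorem mem_low (hu : ∀ j, u ρ g j ∈ m) (hgr : Gr m ρ g) {n : ℕ} {f : S b}
    (h : aeval (u ρ g) f ∈ m ^ n) : Low n f := by
  intro j
  induction j using Nat.strong_induction_on with
  | _ j ih =>
    intro hj
    refine hgr j _ (homogeneousComponent_isHomogeneous j f) ?_
    have h1 : aeval (u ρ g) (f - homogeneousComponent j f) ∈ m ^ (j + 1) := by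
      refine low_mem hu fun k hk => ?_
      rw [map_sub]
      rcases Nat.lt_or_eq_of_le (Nat.le_of_lt_succ hk) with h2 | h2
      · rw [ih k h2 (h2.trans hj), homogeneousComponent_of_mem
          (homogeneousComponent_isHomogeneous j f), if_neg h2.ne, sub_zero]
      · subst h2
        rw [homogeneousComponent_of_mem (homogeneousComponent_isHomogeneous k f), if_pos rfl,
          sub_self]
    rw [map_sub] at h1
    have h2 : aeval (u ρ g) f ∈ m ^ (j + 1) := Ideal.pow_le_pow_right hj h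
    have h3 := Ideal.sub_mem _ h2 h1
    rwa [sub_sub_cancel] at h3

theorem D_mem (hu : ∀ j, u ρ g j ∈ m) (L : List (Fin b × Bool)) :
    aeval (u ρ g) (D L) - 1 ∈ m := by
  unfold D
  induction L with
  | nil => simp
  | cons p L ih =>
    rw [List.map_cons, List.prod_cons, map_mul, map_add, map_one, aeval_X]
    have h : (1 + u ρ g (p.1, 0)) * aeval (u ρ g) (List.map (fun p => (1 + X (p.1, 0) : S b)) L).prod
        - 1 = (aeval (u ρ g) (List.map (fun p => (1 + X (p.1, 0) : S b)) L).prod - 1) +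
        u ρ g (p.1, 0) * aeval (u ρ g) (List.map (fun p => (1 + X (p.1, 0) : S b)) L).prod := by
      ring
    rw [h]
    exact Ideal.add_mem _ ih (Ideal.mul_mem_right _ _ (hu _))

theorem hM (i : Fin b) : M (aeval (u ρ g) (X (i, 0) : S b)) (aeval (u ρ g) (X (i, 1) : S b))
    (aeval (u ρ g) (X (i, 2) : S b)) =
    (1 + aeval (u ρ g) (X (i, 0) : S b)) • (ρ (g i) : Matrix (Fin 2) (Fin 2) A) := by
  have hdet : (ρ (g i)).1 0 0 * (ρ (g i)).1 1 1 - (ρ (g i)).1 0 1 * (ρ (g i)).1 1 0 = 1 := by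
    have := (ρ (g i)).2
    rwa [Matrix.det_fin_two] at this
  rw [aeval_X, aeval_X, aeval_X]
  have e0 : u ρ g (i, 0) = (ρ (g i)).1 0 0 - 1 := rfl
  have e1 : u ρ g (i, 1) = (ρ (g i)).1 0 1 := rfl
  have e2 : u ρ g (i, 2) = (ρ (g i)).1 1 0 := rfl
  rw [e0, e1, e2, M]
  ext a c
  fin_cases a <;> fin_cases c
  · simp only [Fin.zero_eta, Matrix.of_apply, Matrix.cons_val', Matrix.cons_val_zero,
      Matrix.cons_val_fin_one, Matrix.smul_apply, smul_eq_mul]
    ring
  · simp only [Fin.zero_eta, Fin.mk_one, Matrix.of_apply, Matrix.cons_val', Matrix.cons_val_zero,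
      Matrix.cons_val_fin_one, Matrix.cons_val_one, Matrix.smul_apply, smul_eq_mul]
  · simp only [Fin.zero_eta, Fin.mk_one, Matrix.of_apply, Matrix.cons_val', Matrix.cons_val_zero,
      Matrix.cons_val_fin_one, Matrix.cons_val_one, Matrix.smul_apply, smul_eq_mul]
  · simp only [Fin.mk_one, Matrix.of_apply, Matrix.cons_val',
      Matrix.cons_val_fin_one, Matrix.cons_val_one, Matrix.smul_apply, smul_eq_mul]
    linear_combination (-1 : A) * hdet

theorem step (hfin : ∀ k, Finite (A ⧸ m ^ k))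
    (hρ : ∀ x i j, (ρ x).1 i j - (1 : Matrix (Fin 2) (Fin 2) A) i j ∈ m)
    (hg : ∀ χ : Γ →* Multiplicative (ZMod 2), (∀ i, χ (g i) = 1) → χ = 1) (hgr : Gr m ρ g) (x : Γ)
    (hT : (ρ x).1 0 0 + (ρ x).1 1 1 = 0) (d : ℕ)
    (hd : ∀ i j, (ρ x).1 i j - (1 : Matrix (Fin 2) (Fin 2) A) i j ∈ m ^ d) :
    ∀ i j, (ρ x).1 i j - (1 : Matrix (Fin 2) (Fin 2) A) i j ∈ m ^ (d + 1) := by
  have h2 : (2 : A) = 0 := two_eq_zero A
  have h2S : (2 : S b) = 0 := two_eq_zero _
  have hu := u_mem (m := m) (ρ := ρ) (g := g) hρ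
  obtain ⟨w, hw⟩ := approx m ρ hfin hρ g hg (2 * d + 1) x
  obtain ⟨L, rfl⟩ := Quot.exists_rep w
  have hL : ∀ i j, (ρ (FreeGroup.lift g (FreeGroup.mk L))).1 i j - (ρ x).1 i j ∈ m ^ (2 * d + 1) := hw
  let R : SpecialLinearGroup (Fin 2) A := ρ (FreeGroup.lift g (FreeGroup.mk L))
  have hR : FreeGroup.lift (fun i => ρ (g i)) (FreeGroup.mk L) = R := by
    have : FreeGroup.lift (fun i => ρ (g i)) = ρ.comp (FreeGroup.lift g) := by
      refine FreeGroup.ext_hom _ _ fun i => ?_
      simp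
    rw [this]
    rfl
  have hQ : ∀ i j, aeval (u ρ g) (Q L i j) = aeval (u ρ g) (D L) *
      (R.1 i j - (1 : Matrix (Fin 2) (Fin 2) A) i j) := by
    intro i j
    have := Q_eval (aeval (u ρ g) : S b →ₐ[ZMod 2] A).toRingHom (fun i => ρ (g i)) (fun i => hM i) L i j
    rw [hR] at this
    exact this
  have hRd : ∀ i j, R.1 i j - (1 : Matrix (Fin 2) (Fin 2) A) i j ∈ m ^ d := by
    intro i j
    have h := Ideal.add_mem _ (Ideal.pow_le_pow_right (show d ≤ 2 * d + 1 by omega) (hL i j)) (hd i j)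
    rwa [sub_add_sub_cancel] at h
  have hlow : ∀ i j, Low d (Q L i j) := fun i j =>
    mem_low hu hgr (by rw [hQ]; exact Ideal.mul_mem_left _ _ (hRd i j))
  have hTR : R.1 0 0 + R.1 1 1 ∈ m ^ (2 * d + 1) := by
    have h := Ideal.add_mem _ (hL 0 0) (hL 1 1)
    have e : (ρ (FreeGroup.lift g (FreeGroup.mk L))).1 0 0 - (ρ x).1 0 0 +
        ((ρ (FreeGroup.lift g (FreeGroup.mk L))).1 1 1 - (ρ x).1 1 1) = R.1 0 0 + R.1 1 1 := by
      linear_combination (-1 : A) * hT
    rwa [e] at h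
  have hdetR : R.1 0 0 * R.1 1 1 - R.1 0 1 * R.1 1 0 = 1 := by
    have := R.2
    rwa [Matrix.det_fin_two] at this
  have o00 : (1 : Matrix (Fin 2) (Fin 2) A) 0 0 = 1 := rfl
  have o11 : (1 : Matrix (Fin 2) (Fin 2) A) 1 1 = 1 := rfl
  have o01 : (1 : Matrix (Fin 2) (Fin 2) A) 0 1 = 0 := rfl
  have o10 : (1 : Matrix (Fin 2) (Fin 2) A) 1 0 = 0 := rfl
  -- the trace
  have ht1 : Low (2 * d + 1) (Q L 0 0 + Q L 1 1) := by
    refine mem_low hu hgr ?_
    rw [map_add, hQ, hQ, o00, o11]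
    have e : aeval (u ρ g) (D L) * (R.1 0 0 - 1) + aeval (u ρ g) (D L) * (R.1 1 1 - 1) =
        aeval (u ρ g) (D L) * (R.1 0 0 + R.1 1 1) := by
      linear_combination (-(aeval (u ρ g) (D L))) * h2
    rw [e]
    exact Ideal.mul_mem_left _ _ hTR
  have ht : homogeneousComponent d (Q L 0 0) = homogeneousComponent d (Q L 1 1) := by
    have h := ht1 d (by omega)
    rw [map_add] at h
    linear_combination h - homogeneousComponent d (Q L 1 1) * h2S
  -- the determinant
  have hdt1 : Low (2 * d + 1) (Q L 0 0 * Q L 1 1 - Q L 0 1 * Q L 1 0) := by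
    refine mem_low hu hgr ?_
    rw [map_sub, map_mul, map_mul, hQ, hQ, hQ, hQ, o00, o11, o01, o10]
    have e : aeval (u ρ g) (D L) * (R.1 0 0 - 1) * (aeval (u ρ g) (D L) * (R.1 1 1 - 1)) -
        aeval (u ρ g) (D L) * (R.1 0 1 - 0) * (aeval (u ρ g) (D L) * (R.1 1 0 - 0)) =
        -(aeval (u ρ g) (D L) * aeval (u ρ g) (D L)) * (R.1 0 0 + R.1 1 1) := by
      linear_combination (aeval (u ρ g) (D L) * aeval (u ρ g) (D L)) * hdetR +
        (aeval (u ρ g) (D L) * aeval (u ρ g) (D L)) * h2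
    rw [e]
    exact Ideal.mul_mem_left _ _ hTR
  have hdt : homogeneousComponent d (Q L 0 0) * homogeneousComponent d (Q L 1 1) =
      homogeneousComponent d (Q L 0 1) * homogeneousComponent d (Q L 1 0) := by
    have h := hdt1 (d + d) (by omega)
    rw [map_sub, comp_mul (hlow 0 0) (hlow 1 1), comp_mul (hlow 0 1) (hlow 1 0), sub_eq_zero] at h
    exact h
  have hN := no_nilp L d hlow ht hdt
  have hlow' : ∀ i j, Low (d + 1) (Q L i j) := by
    intro i j k hk
    rcases Nat.lt_or_eq_of_le (Nat.le_of_lt_succ hk) with h | h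
    · exact hlow i j k h
    · rw [h]
      exact hN i j
  intro i j
  have h3 : aeval (u ρ g) (D L) * (R.1 i j - (1 : Matrix (Fin 2) (Fin 2) A) i j) ∈ m ^ (d + 1) := by
    rw [← hQ]
    exact low_mem hu (hlow' i j)
  have h4 : (aeval (u ρ g) (D L) - 1) * (R.1 i j - (1 : Matrix (Fin 2) (Fin 2) A) i j) ∈
      m ^ (d + 1) := by
    have h6 := Ideal.mul_mem_mul (hRd i j) (D_mem hu L)
    rw [← pow_succ, mul_comm] at h6
    exact h6
  have h5 := Ideal.sub_mem _ (Ideal.sub_mem _ h3 h4)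
    (Ideal.pow_le_pow_right (show d + 1 ≤ 2 * d + 1 by omega) (hL i j))
  have e : aeval (u ρ g) (D L) * (R.1 i j - (1 : Matrix (Fin 2) (Fin 2) A) i j) -
      (aeval (u ρ g) (D L) - 1) * (R.1 i j - (1 : Matrix (Fin 2) (Fin 2) A) i j) -
      ((ρ (FreeGroup.lift g (FreeGroup.mk L))).1 i j - (ρ x).1 i j) =
      (ρ x).1 i j - (1 : Matrix (Fin 2) (Fin 2) A) i j := by
    change aeval (u ρ g) (D L) * (R.1 i j - (1 : Matrix (Fin 2) (Fin 2) A) i j) -
      (aeval (u ρ g) (D L) - 1) * (R.1 i j - (1 : Matrix (Fin 2) (Fin 2) A) i j) -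
      (R.1 i j - (ρ x).1 i j) = _
    ring
  rwa [e] at h5

/-- NO UNIPOTENT ELEMENTS IN CHARACTERISTIC TWO. Let `ρ : Γ → SL₂(A)` be trivial modulo the ideal
`m` of the ring `A` of characteristic two, with finite `A/mᵏ` and `⋂ mᵏ = 0`. Suppose that no
non-trivial character of order two of `Γ` is trivial on all `g i` and that the associated graded ring
is a polynomial ring in the entries of the `ρ (g i) - 1`. Then an element with `tr ρ x = 0` has
`ρ x = 1`. -/
theorem eq_one_of_trace (hfin : ∀ k, Finite (A ⧸ m ^ k)) (hK : ⨅ k : ℕ, m ^ k = ⊥)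
    (hρ : ∀ x i j, (ρ x).1 i j - (1 : Matrix (Fin 2) (Fin 2) A) i j ∈ m)
    (hg : ∀ χ : Γ →* Multiplicative (ZMod 2), (∀ i, χ (g i) = 1) → χ = 1) (hgr : Gr m ρ g) (x : Γ)
    (hT : (ρ x).1 0 0 + (ρ x).1 1 1 = 0) : ρ x = 1 := by
  have h : ∀ d i j, (ρ x).1 i j - (1 : Matrix (Fin 2) (Fin 2) A) i j ∈ m ^ d := by
    intro d
    induction d with
    | zero => intro i j; simp
    | succ d ih => exact step hfin hρ hg hgr x hT d ih
  apply Subtype.ext
  ext i j
  have h1 : (ρ x).1 i j - (1 : Matrix (Fin 2) (Fin 2) A) i j ∈ ⨅ k : ℕ, m ^ k :=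
    Ideal.mem_iInf.mpr fun d => h d i j
  rw [hK, Ideal.mem_bot, sub_eq_zero] at h1
  exact h1

end Pool.Agent.FrDiv
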