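import Mathlib

/-!
# MP_305fdd, F_r, block DIV: the `y`-order on `k[x,y,z]` and the parity argument
-/

set_option autoImplicit false

namespace Pool.Agent.FrDiv

open MvPolynomial

/-- the polynomial ring in `x_i, y_i, z_i` over the field with two elements -/
abbrev S (b : ℕ) : Type := MvPolynomial (Fin b × Fin 3) (ZMod 2)

variable {b : ℕ}

/-- the weights of the torus -/
def wt (j : Fin b × Fin 3) : ℤ := if j.2 = 1 then 1 else if j.2 = 2 then -1 else 0

/-- the exchange of the `y_i` and the `z_i` -/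
def sw (j : Fin b × Fin 3) : Fin b × Fin 3 :=
  (j.1, if j.2 = 1 then 2 else if j.2 = 2 then 1 else j.2)

theorem sw_sw (j : Fin b × Fin 3) : sw (sw j) = j := by
  obtain ⟨i, j⟩ := j
  fin_cases j <;> rfl

theorem sw_injective : Function.Injective (sw : Fin b × Fin 3 → Fin b × Fin 3) := fun x y h => by
  rw [← sw_sw x, ← sw_sw y, h]

theorem sw_two (j : Fin b × Fin 3) : (sw j).2 = 2 ↔ j.2 = 1 := by
  obtain ⟨i, j⟩ := j
  fin_cases j <;> simp [sw]

theorem sw_one (j : Fin b × Fin 3) : (sw j).2 = 1 ↔ j.2 = 2 := by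
  obtain ⟨i, j⟩ := j
  fin_cases j <;> simp [sw]

/-- the substitution `X_j ↦ t X_j` for `j.2 = c` -/
noncomputable def th (c : Fin 3) : S b →ₐ[ZMod 2] Polynomial (S b) :=
  aeval fun j => if j.2 = c then Polynomial.X * Polynomial.C (X j) else Polynomial.C (X j)

/-- the degree of a monomial in the variables `j` with `j.2 = c` -/
def dg (c : Fin 3) (m : (Fin b × Fin 3) →₀ ℕ) : ℕ := m.sum fun j n => if j.2 = c then n else 0

theorem th_monomial (c : Fin 3) (m : (Fin b × Fin 3) →₀ ℕ) (r : ZMod 2) :
    th c (monomial m r : S b) = Polynomial.X ^ dg c m * Polynomial.C (monomial m r) := by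
  have h1 : ∀ (j : Fin b × Fin 3) (n : ℕ),
      ((if j.2 = c then Polynomial.X * Polynomial.C (X j) else Polynomial.C (X j)) ^ n :
        Polynomial (S b)) =
      Polynomial.X ^ (if j.2 = c then n else 0) * Polynomial.C (X j ^ n) := by
    intro j n
    split_ifs with h
    · rw [mul_pow, Polynomial.C_pow]
    · rw [pow_zero, one_mul, Polynomial.C_pow]
  rw [th, aeval_monomial, Finsupp.prod, Finset.prod_congr rfl (fun j _ => h1 j (m j))]
  rw [Finset.prod_mul_distrib, Finset.prod_pow_eq_pow_sum, dg, Finsupp.sum]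
  rw [monomial_eq, Finsupp.prod, map_mul Polynomial.C, map_prod Polynomial.C]
  have h2 : algebraMap (ZMod 2) (Polynomial (S b)) r = Polynomial.C (C r) := rfl
  rw [h2]
  ring

theorem wt_eq (m : (Fin b × Fin 3) →₀ ℕ) :
    Finsupp.weight (wt : Fin b × Fin 3 → ℤ) m = (dg 1 m : ℤ) - dg 2 m := by
  rw [Finsupp.weight_apply, dg, dg, Finsupp.sum, Finsupp.sum, Finsupp.sum]
  push_cast
  rw [← Finset.sum_sub_distrib]
  refine Finset.sum_congr rfl fun j _ => ?_
  rw [wt]
  by_cases h1 : j.2 = 1
  · simp [h1]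
  · by_cases h2 : j.2 = 2
    · simp [h2]
    · simp [h1, h2]

theorem th_sum (c : Fin 3) (f : S b) :
    th c f = ∑ m ∈ f.support, Polynomial.X ^ dg c m * Polynomial.C (monomial m (coeff m f)) := by
  conv_lhs => rw [f.as_sum]
  rw [map_sum]
  exact Finset.sum_congr rfl fun m _ => th_monomial c m _

theorem th_wt_zero {f : S b} (hf : IsWeightedHomogeneous (wt : Fin b × Fin 3 → ℤ) f 0) :
    th 1 f = th 2 f := by
  rw [th_sum, th_sum]
  refine Finset.sum_congr rfl fun m hm => ?_
  have h := hf (mem_support_iff.mp hm)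
  rw [wt_eq] at h
  have : dg 1 m = dg 2 m := by omega
  rw [this]

theorem th_wt_one {f : S b} (hf : IsWeightedHomogeneous (wt : Fin b × Fin 3 → ℤ) f 1) :
    th 1 f = Polynomial.X * th 2 f := by
  rw [th_sum, th_sum, Finset.mul_sum]
  refine Finset.sum_congr rfl fun m hm => ?_
  have h := hf (mem_support_iff.mp hm)
  rw [wt_eq] at h
  have : dg 1 m = dg 2 m + 1 := by omega
  rw [this, pow_succ]
  ring

theorem th_injective (c : Fin 3) : Function.Injective (th c : S b →ₐ[ZMod 2] Polynomial (S b)) := by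
  have h : ∀ f : S b, Polynomial.eval 1 (th c f) = f := by
    intro f
    rw [th_sum, Polynomial.eval_finsetSum]
    conv_rhs => rw [f.as_sum]
    refine Finset.sum_congr rfl fun m _ => ?_
    rw [Polynomial.eval_mul, Polynomial.eval_pow, Polynomial.eval_X, one_pow, one_mul,
      Polynomial.eval_C]
  intro f g hfg
  rw [← h f, ← h g, hfg]

/-- the exchange on polynomials -/
noncomputable def swp : S b →ₐ[ZMod 2] S b := rename sw

theorem swp_injective : Function.Injective (swp : S b →ₐ[ZMod 2] S b) :=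
  rename_injective _ sw_injective

theorem th_swp (f : S b) : th 1 (swp f) = Polynomial.map (swp : S b →ₐ[ZMod 2] S b).toRingHom (th 2 f) := by
  have h : (th 1).comp (swp : S b →ₐ[ZMod 2] S b) =
      (Polynomial.mapAlgHom (swp : S b →ₐ[ZMod 2] S b)).comp (th 2) := by
    refine MvPolynomial.algHom_ext fun j => ?_
    rw [AlgHom.comp_apply, AlgHom.comp_apply, swp, rename_X, th, th, aeval_X, aeval_X]
    by_cases hj : j.2 = 2
    · rw [if_pos ((sw_one j).mpr hj), if_pos hj, map_mul]
      simp [Polynomial.coe_mapAlgHom]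
    · rw [if_neg (fun h => hj ((sw_one j).mp h)), if_neg hj]
      simp [Polynomial.coe_mapAlgHom]
  have := congrArg (fun φ => φ f) h
  exact this

theorem ntd_map (p : Polynomial (S b)) :
    (Polynomial.map (swp : S b →ₐ[ZMod 2] S b).toRingHom p).natTrailingDegree = p.natTrailingDegree := by
  have hinj : Function.Injective (swp : S b →ₐ[ZMod 2] S b).toRingHom := swp_injective
  rw [Polynomial.natTrailingDegree, Polynomial.natTrailingDegree, Polynomial.trailingDegree,
    Polynomial.trailingDegree, Polynomial.support_map_of_injective p hinj]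

/-- THE PARITY ARGUMENT: there is no nilpotent leading form. -/
theorem parity {a β γ : S b}
    (hβ : IsWeightedHomogeneous (wt : Fin b × Fin 3 → ℤ) β 1) (hw : swp γ = β) (hw' : swp β = γ)
    (h : a * a = β * γ) : a = 0 ∧ β = 0 ∧ γ = 0 := by
  have key : β = 0 → a = 0 ∧ β = 0 ∧ γ = 0 := by
    intro h0
    refine ⟨?_, h0, ?_⟩
    · rw [h0, zero_mul] at h
      exact mul_self_eq_zero.mp h
    · rw [← hw', h0, map_zero]
  by_contra hne
  have hβ0 : β ≠ 0 := fun h0 => hne (key h0)
  have hγ0 : γ ≠ 0 := by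
    intro h0
    rw [h0, map_zero] at hw
    exact hβ0 hw.symm
  have ha0 : a ≠ 0 := by
    intro h0
    rw [h0, zero_mul] at h
    rcases mul_eq_zero.mp h.symm with h1 | h1
    · exact hβ0 h1
    · exact hγ0 h1
  have hinj := th_injective (b := b) 1
  have hinj2 := th_injective (b := b) 2
  have h1 : th 1 a * th 1 a = th 1 β * th 1 γ := by rw [← map_mul, ← map_mul, h]
  have n0 : ∀ {c : Fin 3} {f : S b}, f ≠ 0 → th c f ≠ 0 := by
    intro c f hf h0
    exact hf (th_injective c (by rw [h0, map_zero]))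
  have h2 := congrArg Polynomial.natTrailingDegree h1
  rw [Polynomial.natTrailingDegree_mul (n0 ha0) (n0 ha0),
    Polynomial.natTrailingDegree_mul (n0 hβ0) (n0 hγ0)] at h2
  have h3 : (th 1 β).natTrailingDegree = 1 + (th 2 β).natTrailingDegree := by
    rw [th_wt_one hβ, Polynomial.natTrailingDegree_mul Polynomial.X_ne_zero (n0 hβ0),
      Polynomial.natTrailingDegree_X]
  have h4 : (th 1 γ).natTrailingDegree = (th 2 β).natTrailingDegree := by
    rw [← hw', th_swp, ntd_map]
  omega

end Pool.Agent.FrDiv
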