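import Pool.Agent.Lib.MP_305fdd_al.Fr.Div.Word

/-!
# MP_305fdd, F_r, block DIV: the Weyl element acts on leading forms
-/

set_option autoImplicit false

namespace Pool.Agent.FrDiv

open MvPolynomial Matrix

variable {b : ℕ}

/-- power series in one variable over the polynomial ring -/
abbrev PS (b : ℕ) : Type := PowerSeries (S b)

theorem two_eq_zero (R : Type) [CommRing R] [Algebra (ZMod 2) R] : (2 : R) = 0 := by
  have h : algebraMap (ZMod 2) R 2 = 2 := map_ofNat _ 2
  rw [← h, show (2 : ZMod 2) = 0 from rfl, map_zero]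

/-- substitution `X_j ↦ s c_j` -/
noncomputable def Ph (c : Fin b × Fin 3 → PS b) : S b →ₐ[ZMod 2] PS b :=
  aeval fun j => PowerSeries.X * c j

theorem Ph_hom (c : Fin b × Fin 3 → PS b) {f : S b} {n : ℕ} (hf : f.IsHomogeneous n) :
    Ph c f = PowerSeries.X ^ n * aeval c f := by
  conv_lhs => rw [f.as_sum]
  conv_rhs => rw [f.as_sum]
  rw [map_sum, map_sum, Finset.mul_sum]
  refine Finset.sum_congr rfl fun m hm => ?_
  have h := hf (mem_support_iff.mp hm)
  rw [Ph, aeval_monomial, aeval_monomial, Finsupp.prod, Finsupp.prod]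
  simp only [mul_pow]
  rw [Finset.prod_mul_distrib, Finset.prod_pow_eq_pow_sum]
  have h2 : ∑ i ∈ m.support, m i = n := by
    rw [← h, Finsupp.weight_apply, Finsupp.sum]
    exact Finset.sum_congr rfl fun i _ => by simp
  rw [h2]
  ring

theorem Ph_coeff (c : Fin b × Fin 3 → PS b) (f : S b) (d : ℕ)
    (h0 : ∀ k < d, homogeneousComponent k f = 0) :
    PowerSeries.coeff d (Ph c f) =
      aeval (fun j => PowerSeries.constantCoeff (c j)) (homogeneousComponent d f) := by
  have h1 : Ph c f = ∑ k ∈ Finset.range (f.totalDegree + 1),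
      PowerSeries.X ^ k * aeval c (homogeneousComponent k f) := by
    conv_lhs => rw [← sum_homogeneousComponent f]
    rw [map_sum]
    exact Finset.sum_congr rfl fun k _ => Ph_hom c (homogeneousComponent_isHomogeneous k f)
  have h2 : ∀ g : S b, PowerSeries.constantCoeff (aeval c g) =
      aeval (fun j => PowerSeries.constantCoeff (c j)) g := by
    intro g
    have : (PowerSeries.constantCoeff (R := S b)).comp (aeval c : S b →ₐ[ZMod 2] PS b).toRingHom =
        (aeval (fun j => PowerSeries.constantCoeff (c j)) : S b →ₐ[ZMod 2] S b).toRingHom := by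
      refine MvPolynomial.ringHom_ext (fun r => ?_) (fun j => ?_)
      · exact RingHom.congr_fun (Subsingleton.elim
          (((PowerSeries.constantCoeff (R := S b)).comp
            (aeval c : S b →ₐ[ZMod 2] PS b).toRingHom).comp C)
          ((aeval (fun j => PowerSeries.constantCoeff (c j)) :
            S b →ₐ[ZMod 2] S b).toRingHom.comp C)) r
      · simp
    exact RingHom.congr_fun this g
  rw [h1, map_sum]
  rw [Finset.sum_eq_single d]
  · rw [PowerSeries.coeff_X_pow_mul', if_pos le_rfl, Nat.sub_self,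
      PowerSeries.coeff_zero_eq_constantCoeff_apply, h2]
  · intro k _ hk
    rw [PowerSeries.coeff_X_pow_mul']
    split_ifs with hle
    · rw [h0 k (lt_of_le_of_ne hle hk), map_zero, map_zero]
    · rfl
  · intro hd
    rw [Finset.mem_range, not_lt] at hd
    rw [homogeneousComponent_eq_zero d f (by omega), map_zero, mul_zero, map_zero]

theorem coeff_mul_low (f g : PS b) (d : ℕ) (h0 : ∀ k < d, PowerSeries.coeff k g = 0) :
    PowerSeries.coeff d (f * g) = PowerSeries.constantCoeff f * PowerSeries.coeff d g := by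
  obtain ⟨g', rfl⟩ := PowerSeries.X_pow_dvd_iff.mpr h0
  rw [show f * (PowerSeries.X ^ d * g') = PowerSeries.X ^ d * (f * g') by ring,
    PowerSeries.coeff_X_pow_mul', PowerSeries.coeff_X_pow_mul', if_pos le_rfl, if_pos le_rfl,
    Nat.sub_self, PowerSeries.coeff_zero_eq_constantCoeff_apply, map_mul,
    PowerSeries.coeff_zero_eq_constantCoeff_apply]

theorem D_const (c : Fin b × Fin 3 → PS b) (L : List (Fin b × Bool)) :
    PowerSeries.constantCoeff (Ph c (D L)) = 1 := by
  rw [D, map_list_prod, map_list_prod, List.map_map, List.map_map]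
  refine List.prod_eq_one fun x hx => ?_
  obtain ⟨p, _, rfl⟩ := List.mem_map.mp hx
  simp [Ph]

/-- the series `1 + s x_i` -/
noncomputable def lin (i : Fin b) : PS b := 1 + PowerSeries.X * PowerSeries.C (X (i, 0))

theorem exists_inv (i : Fin b) : ∃ v : PS b, lin i * v = 1 := by
  have : IsUnit (lin i) := by
    rw [PowerSeries.isUnit_iff_constantCoeff]
    simp [lin]
  exact this.exists_right_inv

/-- the inverse of `1 + s x_i` -/
noncomputable def v (i : Fin b) : PS b := (exists_inv i).choose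

theorem lin_v (i : Fin b) : lin i * v i = 1 := (exists_inv i).choose_spec

theorem v_const (i : Fin b) : PowerSeries.constantCoeff (v i) = 1 := by
  have := congrArg PowerSeries.constantCoeff (lin_v i)
  rw [map_mul, map_one] at this
  simpa [lin] using this

/-- the first substitution -/
noncomputable def c1 (j : Fin b × Fin 3) : PS b := PowerSeries.C (X j)

/-- the second substitution -/
noncomputable def c2 (j : Fin b × Fin 3) : PS b :=
  if j.2 = 0 then (PowerSeries.C (X (j.1, 0)) +
    PowerSeries.X * (PowerSeries.C (X (j.1, 1)) * PowerSeries.C (X (j.1, 2)))) * v j.1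
  else PowerSeries.C (X (sw j))

theorem c2_const (j : Fin b × Fin 3) : PowerSeries.constantCoeff (c2 j) = X (sw j) := by
  obtain ⟨i, j⟩ := j
  rw [c2]
  by_cases h : j = 0
  · subst h
    simp [v_const, sw]
  · simp [h]

/-- the matrices `T1` -/
noncomputable def T1 (i : Fin b) : SpecialLinearGroup (Fin 2) (PS b) :=
  ⟨!![lin i, PowerSeries.X * PowerSeries.C (X (i, 1)); PowerSeries.X * PowerSeries.C (X (i, 2)),
    (1 + (PowerSeries.X * PowerSeries.C (X (i, 1))) * (PowerSeries.X * PowerSeries.C (X (i, 2)))) * v i], by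
    rw [Matrix.det_fin_two_of]
    have h := lin_v i
    linear_combination (1 + (PowerSeries.X * PowerSeries.C (X (i, 1))) *
      (PowerSeries.X * PowerSeries.C (X (i, 2)))) * h⟩

/-- the Weyl element -/
def w0 (R : Type) [CommRing R] : SpecialLinearGroup (Fin 2) R :=
  ⟨!![0, 1; -1, 0], by rw [Matrix.det_fin_two_of]; ring⟩

theorem M_aux1 {R : Type} [CommRing R] (x y z w : R) (h : (1 + x) * w = 1) :
    M x y z = (1 + x) • !![1 + x, y; z, (1 + y * z) * w] := by
  rw [M]
  ext a c
  fin_cases a <;> fin_cases c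
  · simp [pow_two]
  · simp
  · simp
  · simp only [Fin.mk_one, Matrix.of_apply, Matrix.cons_val', Matrix.cons_val_one,
      Matrix.cons_val_fin_one, Matrix.smul_apply, smul_eq_mul]
    linear_combination (-(1 + y * z)) * h

theorem hT1 (i : Fin b) : M (Ph c1 (X (i, 0))) (Ph c1 (X (i, 1))) (Ph c1 (X (i, 2))) =
    (1 + Ph c1 (X (i, 0))) • (T1 i : Matrix (Fin 2) (Fin 2) (PS b)) := by
  have e0 : Ph c1 (X (i, 0)) = PowerSeries.X * PowerSeries.C (X (i, 0) : S b) := by simp [Ph, c1]
  have e1 : Ph c1 (X (i, 1)) = PowerSeries.X * PowerSeries.C (X (i, 1) : S b) := by simp [Ph, c1]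
  have e2 : Ph c1 (X (i, 2)) = PowerSeries.X * PowerSeries.C (X (i, 2) : S b) := by simp [Ph, c1]
  rw [e0, e1, e2]
  exact M_aux1 _ _ _ (v i) (lin_v i)

/-- the matrices `T2` -/
noncomputable def T2 (i : Fin b) : SpecialLinearGroup (Fin 2) (PS b) :=
  w0 (PS b) * T1 i * (w0 (PS b))⁻¹

theorem conj_coe {R : Type} [CommRing R] (A : SpecialLinearGroup (Fin 2) R) :
    ((w0 R * A * (w0 R)⁻¹ : SpecialLinearGroup (Fin 2) R) : Matrix (Fin 2) (Fin 2) R) =
      !![(A : Matrix (Fin 2) (Fin 2) R) 1 1, -(A : Matrix (Fin 2) (Fin 2) R) 1 0;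
        -(A : Matrix (Fin 2) (Fin 2) R) 0 1, (A : Matrix (Fin 2) (Fin 2) R) 0 0] := by
  have h : ((w0 R * A * (w0 R)⁻¹ : SpecialLinearGroup (Fin 2) R) : Matrix (Fin 2) (Fin 2) R) =
      !![0, 1; -1, 0] * A.1 * (!![0, 1; -1, 0] : Matrix (Fin 2) (Fin 2) R).adjugate := rfl
  rw [h, Matrix.adjugate_fin_two_of]
  conv_lhs => rw [Matrix.eta_fin_two A.1]
  rw [Matrix.mul_fin_two, Matrix.mul_fin_two]
  ext a c
  fin_cases a <;> fin_cases c <;> simp

theorem M_aux2 {R : Type} [CommRing R] (h2 : (2 : R) = 0) (s x y z w : R)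
    (h : (1 + s * x) * w = 1) :
    M (s * ((x + s * (y * z)) * w)) (s * z) (s * y) = (1 + s * ((x + s * (y * z)) * w)) •
      !![(1 + s * y * (s * z)) * w, -(s * z); -(s * y), 1 + s * x] := by
  have h4 : 1 + s * ((x + s * (y * z)) * w) = (1 + s * y * (s * z)) * w := by
    linear_combination (-1 : R) * h + s * x * w * h2
  rw [M, h4]
  ext a c
  fin_cases a <;> fin_cases c
  · simp [pow_two]
  · simp only [Fin.zero_eta, Fin.mk_one, Matrix.of_apply, Matrix.cons_val', Matrix.cons_val_zero,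
      Matrix.cons_val_fin_one, Matrix.cons_val_one, Matrix.smul_apply, smul_eq_mul]
    linear_combination (1 + s * y * (s * z)) * w * (s * z) * h2
  · simp only [Fin.zero_eta, Fin.mk_one, Matrix.of_apply, Matrix.cons_val', Matrix.cons_val_zero,
      Matrix.cons_val_fin_one, Matrix.cons_val_one, Matrix.smul_apply, smul_eq_mul]
    linear_combination (1 + s * y * (s * z)) * w * (s * y) * h2
  · simp only [Fin.mk_one, Matrix.of_apply, Matrix.cons_val', Matrix.cons_val_zero,
      Matrix.cons_val_fin_one, Matrix.cons_val_one, Matrix.smul_apply, smul_eq_mul]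
    linear_combination (-(1 + s * y * (s * z))) * h

theorem hT2 (i : Fin b) : M (Ph c2 (X (i, 0))) (Ph c2 (X (i, 1))) (Ph c2 (X (i, 2))) =
    (1 + Ph c2 (X (i, 0))) • (T2 i : Matrix (Fin 2) (Fin 2) (PS b)) := by
  have e0 : Ph c2 (X (i, 0)) = PowerSeries.X * ((PowerSeries.C (X (i, 0)) +
    PowerSeries.X * (PowerSeries.C (X (i, 1)) * PowerSeries.C (X (i, 2)))) * v i) := by simp [Ph, c2]
  have e1 : Ph c2 (X (i, 1)) = PowerSeries.X * PowerSeries.C (X (i, 2) : S b) := by simp [Ph, c2, sw]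
  have e2 : Ph c2 (X (i, 2)) = PowerSeries.X * PowerSeries.C (X (i, 1) : S b) := by simp [Ph, c2, sw]
  rw [e0, e1, e2, T2, conj_coe]
  exact M_aux2 (two_eq_zero _) _ _ _ _ (v i) (lin_v i)

theorem lift_T2 (g : FreeGroup (Fin b)) :
    FreeGroup.lift T2 g = w0 (PS b) * FreeGroup.lift T1 g * (w0 (PS b))⁻¹ := by
  have : FreeGroup.lift (T2 (b := b)) =
      (MulAut.conj (w0 (PS b))).toMonoidHom.comp (FreeGroup.lift T1) := by
    refine FreeGroup.ext_hom _ _ fun i => ?_
    rw [FreeGroup.lift_apply_of, MonoidHom.comp_apply, FreeGroup.lift_apply_of]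
    rfl
  rw [this]
  rfl

/-- THE WEYL ELEMENT ON LEADING FORMS. -/
theorem weyl (L : List (Fin b × Bool)) (d : ℕ)
    (h0 : ∀ i j, ∀ k < d, homogeneousComponent k (Q L i j) = 0) :
    swp (homogeneousComponent d (Q L 1 0)) = homogeneousComponent d (Q L 0 1) := by
  have h2 : (2 : S b) = 0 := two_eq_zero _
  have q1 := Q_eval (Ph c1).toRingHom T1 hT1 L 0 1
  have q2 := Q_eval (Ph c2).toRingHom T2 hT2 L 1 0
  rw [lift_T2, conj_coe] at q2
  have q1' : Ph c1 (Q L 0 1) = Ph c1 (D L) *
      (FreeGroup.lift T1 (FreeGroup.mk L) : SpecialLinearGroup (Fin 2) (PS b)).1 0 1 := by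
    have : Ph c1 (Q L 0 1) = _ := q1
    rw [this]
    simp
  have q2' : Ph c2 (Q L 1 0) = - (Ph c2 (D L) *
      (FreeGroup.lift T1 (FreeGroup.mk L) : SpecialLinearGroup (Fin 2) (PS b)).1 0 1) := by
    have : Ph c2 (Q L 1 0) = _ := q2
    rw [this]
    simp
  have key : Ph c1 (D L) * Ph c2 (Q L 1 0) = -(Ph c2 (D L) * Ph c1 (Q L 0 1)) := by
    rw [q1', q2']
    ring
  have z1 : ∀ k < d, PowerSeries.coeff k (Ph c1 (Q L 0 1)) = 0 := fun k hk => by
    rw [Ph_coeff c1 _ k (fun l hl => h0 0 1 l (hl.trans hk)), h0 0 1 k hk, map_zero]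
  have z2 : ∀ k < d, PowerSeries.coeff k (Ph c2 (Q L 1 0)) = 0 := fun k hk => by
    rw [Ph_coeff c2 _ k (fun l hl => h0 1 0 l (hl.trans hk)), h0 1 0 k hk, map_zero]
  have h := congrArg (PowerSeries.coeff d) key
  rw [map_neg, coeff_mul_low _ _ d z2, coeff_mul_low _ _ d z1, D_const, D_const, one_mul, one_mul,
    Ph_coeff c2 _ d (h0 1 0), Ph_coeff c1 _ d (h0 0 1)] at h
  have e1 : (aeval (fun j => PowerSeries.constantCoeff (c1 j)) : S b →ₐ[ZMod 2] S b) =
      AlgHom.id _ _ := by
    refine MvPolynomial.algHom_ext fun j => ?_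
    simp [c1]
  have e2 : (aeval (fun j => PowerSeries.constantCoeff (c2 j)) : S b →ₐ[ZMod 2] S b) = swp := by
    refine MvPolynomial.algHom_ext fun j => ?_
    rw [aeval_X, c2_const, swp, rename_X]
  rw [e1, e2, AlgHom.id_apply] at h
  rw [h]
  linear_combination (-(homogeneousComponent d (Q L 0 1))) * h2

end Pool.Agent.FrDiv
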