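import Pool.Agent.Lib.MP_305fdd_al.Fr.Div.Val

/-!
# MP_305fdd, F_r, block DIV: words in generic matrices
-/

set_option autoImplicit false

namespace Pool.Agent.FrDiv

open MvPolynomial Matrix

variable {b : ℕ}

/-- `(1+x)` times the matrix of determinant one with the entries `1+x, y, z` -/
def M {R : Type} [CommRing R] (x y z : R) : Matrix (Fin 2) (Fin 2) R :=
  !![(1 + x) ^ 2, (1 + x) * y; (1 + x) * z, 1 + y * z]

/-- a matrix or its adjugate -/
def ltr {R : Type} [CommRing R] (ε : Bool) (A : Matrix (Fin 2) (Fin 2) R) :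
    Matrix (Fin 2) (Fin 2) R := if ε then A else A.adjugate

/-- the polynomial matrix of a word -/
noncomputable def P (L : List (Fin b × Bool)) : Matrix (Fin 2) (Fin 2) (S b) :=
  (L.map fun p => ltr p.2 (M (X (p.1, 0)) (X (p.1, 1)) (X (p.1, 2)))).prod

/-- the denominator of a word -/
noncomputable def D (L : List (Fin b × Bool)) : S b :=
  (L.map fun p => 1 + X (p.1, 0)).prod

/-- `Q = P - D` -/
noncomputable def Q (L : List (Fin b × Bool)) : Matrix (Fin 2) (Fin 2) (S b) := P L - D L • 1

theorem ltr_map {R R' : Type} [CommRing R] [CommRing R'] (f : R →+* R') (ε : Bool)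
    (A : Matrix (Fin 2) (Fin 2) R) : (ltr ε A).map f = ltr ε (A.map f) := by
  unfold ltr
  cases ε
  · simp only [Bool.false_eq_true, if_false]
    exact (RingHom.map_adjugate f A)
  · rfl

theorem M_map {R R' : Type} [CommRing R] [CommRing R'] (f : R →+* R') (x y z : R) :
    (M x y z).map f = M (f x) (f y) (f z) := by
  ext i j
  fin_cases i <;> fin_cases j <;> simp [M]

theorem P_map {R : Type} [CommRing R] (f : S b →+* R) (L : List (Fin b × Bool)) :
    (P L).map f = (L.map fun p => ltr p.2 (M (f (X (p.1, 0))) (f (X (p.1, 1))) (f (X (p.1, 2))))).prod := by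
  have : (P L).map f = f.mapMatrix (P L) := rfl
  rw [this, P, map_list_prod, List.map_map]
  congr 1
  refine List.map_congr_left fun p _ => ?_
  rw [Function.comp_apply, RingHom.mapMatrix_apply, ltr_map, M_map]

/-- evaluation: if the matrices are scalar multiples of elements `T i` of a group of matrices -/
theorem P_eval {R : Type} [CommRing R] (f : S b →+* R) (T : Fin b → SpecialLinearGroup (Fin 2) R)
    (hT : ∀ i, M (f (X (i, 0))) (f (X (i, 1))) (f (X (i, 2))) =
      (1 + f (X (i, 0))) • (T i : Matrix (Fin 2) (Fin 2) R)) (L : List (Fin b × Bool)) :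
    (P L).map f = f (D L) •
      ((FreeGroup.lift T (FreeGroup.mk L) : SpecialLinearGroup (Fin 2) R) :
        Matrix (Fin 2) (Fin 2) R) := by
  rw [P_map, FreeGroup.lift_mk, D, map_list_prod]
  induction L with
  | nil => simp
  | cons p L ih =>
    rw [List.map_cons, List.prod_cons, List.map_cons, List.map_cons, List.prod_cons, List.map_cons,
      List.prod_cons, ih]
    have h1 : ltr p.2 (M (f (X (p.1, 0))) (f (X (p.1, 1))) (f (X (p.1, 2)))) =
        (1 + f (X (p.1, 0))) • ((cond p.2 (T p.1) (T p.1)⁻¹ : SpecialLinearGroup (Fin 2) R) :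
          Matrix (Fin 2) (Fin 2) R) := by
      rw [hT]
      unfold ltr
      cases p.2
      · simp only [Bool.false_eq_true, if_false, cond_false]
        rw [Matrix.adjugate_smul, Fintype.card_fin, show 2 - 1 = 1 from rfl, pow_one]
        rfl
      · simp
    rw [h1, map_add, map_one, Matrix.smul_mul, Matrix.mul_smul, smul_smul]
    rfl

theorem Q_eval {R : Type} [CommRing R] (f : S b →+* R) (T : Fin b → SpecialLinearGroup (Fin 2) R)
    (hT : ∀ i, M (f (X (i, 0))) (f (X (i, 1))) (f (X (i, 2))) =
      (1 + f (X (i, 0))) • (T i : Matrix (Fin 2) (Fin 2) R)) (L : List (Fin b × Bool)) (i j : Fin 2) :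
    f (Q L i j) = f (D L) *
      (((FreeGroup.lift T (FreeGroup.mk L) : SpecialLinearGroup (Fin 2) R) :
        Matrix (Fin 2) (Fin 2) R) i j - (1 : Matrix (Fin 2) (Fin 2) R) i j) := by
  have h := congrFun (congrFun (P_eval f T hT L) i) j
  rw [Matrix.map_apply, Matrix.smul_apply, smul_eq_mul] at h
  rw [Q, Matrix.sub_apply, map_sub, h, Matrix.smul_apply, smul_eq_mul, map_mul, mul_sub]
  congr 2
  rw [Matrix.one_apply, Matrix.one_apply]
  split_ifs <;> simp

/-! ### Weights -/

/-- weight of the matrix entries -/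
def we (i : Fin 2) : ℤ := if i = 0 then 1 else 0

theorem mul_weight {A B : Matrix (Fin 2) (Fin 2) (S b)}
    (hA : ∀ i j, IsWeightedHomogeneous (wt : Fin b × Fin 3 → ℤ) (A i j) (we i - we j))
    (hB : ∀ i j, IsWeightedHomogeneous (wt : Fin b × Fin 3 → ℤ) (B i j) (we i - we j)) (i j : Fin 2) :
    IsWeightedHomogeneous (wt : Fin b × Fin 3 → ℤ) ((A * B) i j) (we i - we j) := by
  rw [Matrix.mul_apply]
  refine IsWeightedHomogeneous.sum _ _ _ fun k _ => ?_
  have h := (hA i k).mul (hB k j)
  rwa [sub_add_sub_cancel] at h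

theorem one_weight (i j : Fin 2) :
    IsWeightedHomogeneous (wt : Fin b × Fin 3 → ℤ) ((1 : Matrix (Fin 2) (Fin 2) (S b)) i j)
      (we i - we j) := by
  by_cases h : i = j
  · subst h
    rw [Matrix.one_apply_eq, sub_self]
    exact isWeightedHomogeneous_one _ _
  · rw [Matrix.one_apply_ne h]
    exact isWeightedHomogeneous_zero _ _ _

theorem X_weight (j : Fin b × Fin 3) :
    IsWeightedHomogeneous (wt : Fin b × Fin 3 → ℤ) (X j : S b) (wt j) :=
  isWeightedHomogeneous_X _ _ _

theorem one_add_weight (i : Fin b) :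
    IsWeightedHomogeneous (wt : Fin b × Fin 3 → ℤ) (1 + X (i, 0) : S b) 0 := by
  refine (isWeightedHomogeneous_one _ _).add ?_
  have := X_weight (b := b) (i, 0)
  simpa [wt] using this

theorem M_weight (q : Fin b) (i j : Fin 2) :
    IsWeightedHomogeneous (wt : Fin b × Fin 3 → ℤ)
      ((M (X (q, 0)) (X (q, 1)) (X (q, 2)) : Matrix (Fin 2) (Fin 2) (S b)) i j) (we i - we j) := by
  have hx := one_add_weight q
  have hy : IsWeightedHomogeneous (wt : Fin b × Fin 3 → ℤ) (X (q, 1) : S b) 1 := by
    have := X_weight (b := b) (q, 1)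
    simpa [wt] using this
  have hz : IsWeightedHomogeneous (wt : Fin b × Fin 3 → ℤ) (X (q, 2) : S b) (-1) := by
    have := X_weight (b := b) (q, 2)
    simpa [wt] using this
  fin_cases i <;> fin_cases j
  · have := hx.mul hx
    simpa [M, we, pow_two] using this
  · have := hx.mul hy
    simpa [M, we] using this
  · have := hx.mul hz
    simpa [M, we] using this
  · have := (isWeightedHomogeneous_one (ZMod 2) (wt : Fin b × Fin 3 → ℤ)).add (by
      have := hy.mul hz
      simpa using this)
    simpa [M, we] using this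

theorem neg_weight {f : S b} {n : ℤ} (hf : IsWeightedHomogeneous (wt : Fin b × Fin 3 → ℤ) f n) :
    IsWeightedHomogeneous (wt : Fin b × Fin 3 → ℤ) (-f) n := by
  intro d hd
  refine hf (d := d) ?_
  rw [coeff_neg] at hd
  exact fun h => hd (by rw [h, neg_zero])

theorem ltr_weight (ε : Bool) {A : Matrix (Fin 2) (Fin 2) (S b)}
    (hA : ∀ i j, IsWeightedHomogeneous (wt : Fin b × Fin 3 → ℤ) (A i j) (we i - we j)) (i j : Fin 2) :
    IsWeightedHomogeneous (wt : Fin b × Fin 3 → ℤ) (ltr ε A i j) (we i - we j) := by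
  unfold ltr
  cases ε
  · simp only [Bool.false_eq_true, if_false]
    rw [Matrix.adjugate_fin_two]
    fin_cases i <;> fin_cases j
    · have := hA 1 1
      simpa [we] using this
    · have := neg_weight (hA 0 1)
      simpa [we] using this
    · have := neg_weight (hA 1 0)
      simpa [we] using this
    · have := hA 0 0
      simpa [we] using this
  · exact hA i j

theorem P_weight (L : List (Fin b × Bool)) (i j : Fin 2) :
    IsWeightedHomogeneous (wt : Fin b × Fin 3 → ℤ) (P L i j) (we i - we j) := by
  unfold P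
  induction L generalizing i j with
  | nil => exact one_weight i j
  | cons p L ih =>
    rw [List.map_cons, List.prod_cons]
    exact mul_weight (ltr_weight p.2 (M_weight p.1)) ih i j

theorem D_weight (L : List (Fin b × Bool)) :
    IsWeightedHomogeneous (wt : Fin b × Fin 3 → ℤ) (D L) 0 := by
  unfold D
  induction L with
  | nil => exact isWeightedHomogeneous_one _ _
  | cons p L ih =>
    rw [List.map_cons, List.prod_cons]
    have := (one_add_weight p.1).mul ih
    rwa [add_zero] at this

theorem Q_weight (L : List (Fin b × Bool)) (i j : Fin 2) :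
    IsWeightedHomogeneous (wt : Fin b × Fin 3 → ℤ) (Q L i j) (we i - we j) := by
  rw [Q, Matrix.sub_apply, sub_eq_add_neg]
  refine (P_weight L i j).add (neg_weight ?_)
  rw [Matrix.smul_apply, smul_eq_mul]
  have := (D_weight L).mul (one_weight i j)
  rwa [zero_add] at this

theorem comp_weight {f : S b} {n : ℤ} (hf : IsWeightedHomogeneous (wt : Fin b × Fin 3 → ℤ) f n)
    (d : ℕ) : IsWeightedHomogeneous (wt : Fin b × Fin 3 → ℤ) (homogeneousComponent d f) n := by
  intro m hm
  rw [coeff_homogeneousComponent] at hm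
  refine hf (d := m) ?_
  intro h
  rw [h] at hm
  simp at hm

end Pool.Agent.FrDiv
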